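import Pool.Agent.FAE.Lower

set_option autoImplicit false

namespace Pool.Agent.Results.MP_fa2eca_lc.PositiveDensityCompression

open Filter Pool.Agent.FAE

/-- There are sets `X` and `A`, the set `A` of positive lower density, such that every infinite
subset `B` of `A` compresses almost all initial segments of `X` by more than any constant: for
every choice of the optimal machines, every infinite `B ⊆ A` and every `c`, the inequality
`C^B(X ↾ n) < C(X ↾ n) - c` holds for all but finitely many `n`. The gap is even linear, with a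
constant that does not depend on `B`. Optimal machines, with and without oracle, exist. -/
theorem result :
    (∃ U, OptimalMachine U) ∧ (∃ Φ, OptimalOracleMachine Φ) ∧
    ∃ X A : Set ℕ, 0 < lowerDensity A ∧
      ∀ U, OptimalMachine U → ∀ Φ, OptimalOracleMachine Φ →
        (∀ B ⊆ A, B.Infinite → ∀ c : ℕ, ∀ᶠ n in atTop,
          complexity (Φ B) (initSeg X n) + c < complexity U (initSeg X n)) ∧
        ∃ c : ℕ, ∀ B ⊆ A, B.Infinite → ∀ n : ℕ,
          complexity (Φ B) (initSeg X n) + ((n / 8 : ℕ) : ℕ∞) ≤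
            complexity U (initSeg X n) + c := by
  obtain ⟨g, hg, hX⟩ := limC_setX
  refine ⟨⟨univ, optimalMachine_univ⟩, ⟨ouniv, optimalOracleMachine_ouniv⟩, setX, setA g setX,
    lowerDensity_setA g setX, fun U hU Φ hΦ => ?_⟩
  have hgap : ∃ c : ℕ, ∀ B ⊆ setA g setX, B.Infinite → ∀ n : ℕ,
      complexity (Φ B) (initSeg setX n) + ((n / 8 : ℕ) : ℕ∞) ≤
        complexity U (initSeg setX n) + c := by
    obtain ⟨c₁, h₁⟩ := upper_bound hg hX hΦ
    obtain ⟨c₂, h₂⟩ := lower_bound hU
    refine ⟨c₁ + c₂, fun B hB hinf n => ?_⟩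
    have h3 := h₁ B hB hinf n
    have h5 : ((n / 4 : ℕ) : ℕ∞) ≤ complexity U (initSeg setX n) + c₂ := by
      rcases le_or_gt 2 n with hn | hn
      · exact h₂ n hn
      · have : n / 4 = 0 := by omega
        rw [this]; simp
    calc complexity (Φ B) (initSeg setX n) + ((n / 8 : ℕ) : ℕ∞)
        ≤ ((n / 8 + c₁ : ℕ) : ℕ∞) + ((n / 8 : ℕ) : ℕ∞) := by gcongr
      _ = ((n / 8 + c₁ + n / 8 : ℕ) : ℕ∞) := by push_cast; rfl
      _ ≤ ((n / 4 + c₁ : ℕ) : ℕ∞) := by norm_cast; omega
      _ = ((n / 4 : ℕ) : ℕ∞) + (c₁ : ℕ∞) := by push_cast; rfl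
      _ ≤ (complexity U (initSeg setX n) + c₂) + c₁ := by gcongr
      _ = complexity U (initSeg setX n) + ((c₁ + c₂ : ℕ) : ℕ∞) := by
          push_cast; rw [add_assoc, add_comm (c₂ : ℕ∞)]
  refine ⟨fun B hB hinf c => ?_, hgap⟩
  obtain ⟨d, hd⟩ := hgap
  filter_upwards [eventually_ge_atTop (8 * (c + d + 1))] with n hn
  have h1 := hd B hB hinf n
  obtain ⟨c₁, h₁⟩ := upper_bound hg hX hΦ
  have hfin : complexity (Φ B) (initSeg setX n) ≠ ⊤ :=
    ne_top_of_le_ne_top (ENat.natCast_ne_top _) (h₁ B hB hinf n)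
  by_cases htop : complexity U (initSeg setX n) = ⊤
  · rw [htop]
    exact lt_of_le_of_ne le_top (by simpa using hfin)
  · obtain ⟨a, ha⟩ := ENat.ne_top_iff_exists.1 hfin
    obtain ⟨b, hb⟩ := ENat.ne_top_iff_exists.1 htop
    rw [← ha, ← hb] at h1 ⊢
    norm_cast at h1 ⊢
    omega

end Pool.Agent.Results.MP_fa2eca_lc.PositiveDensityCompression
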